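import Pool.Agent.Lib.MP_a78e1f_lc.U.Iface

/-!
# VU: the axiom fails in the Boolean-valued universe
-/

set_option autoImplicit false

universe u

open scoped symmDiff

namespace Pool.Agent.Lib.MP_a78e1f_lc.H14

open Pool.Agent.Lib.MP_100a6c_lc
open Pool.Agent.Lib.MP_c5d73d_lc.F (pr isOm ZFC)
open Pool.Agent.Lib.MP_e6fef2_lc
open Pool.Agent.Lib.MP_6d445e_gt (Idw Ult ae IsMil)
open BName
open H36 (om nn)

variable {B : Type u} [CompleteBooleanAlgebra B]

theorem ext_isAl1_left (x : BName B) : Ext (fun w => isAl1 (VB B) w x) :=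
  Ext.iSup fun o => ((ext_isSucc_right o).inf (Ext.const _)).inf (Ext.const _)

theorem ext_isEmb_left (A Z f : BName B) : Ext (fun w => isEmb (VB B) w A Z f) :=
  ((Ext.const _).inf
    (Ext.iInf fun _ => Ext.iInf fun _ => Ext.iInf fun n =>
      ((Ext.const _).inf (ext_mem_right n)).himp
        (Ext.iSup fun m => (ext_mem_right m).inf (Ext.const _)))).inf
    (Ext.iInf fun _ => Ext.iInf fun _ => Ext.iInf fun n =>
      ((Ext.const _).inf (ext_mem_right n)).himp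
        (Ext.iSup fun m => (ext_mem_right m).inf (Ext.const _)))

/-- VU. -/
theorem vu (hVz : VzStatement.{u}) (hVc : VcStatement.{u}) (hVf : VfStatement.{u})
    (hCc : CcvpStatement.{u}) : VuStatement.{u} := by
  intro B _ hP hN
  have hccv := hCc B hP
  by_contra hU
  have h1 : ∃ w Z : BName B, isOm (VB B) w ⊓ isAl1Dense (VB B) w Z ⊓
      (⨅ A, (⨅ x, (VB B).mem x A ⇨ (VB B).sub x w) ⊓ isAl1 (VB B) w A ⇨
        ⨆ f, isEmb (VB B) w A Z f) ≠ ⊥ := by
    by_contra hcon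
    push Not at hcon
    exact hU (iSup_eq_bot.2 fun w => iSup_eq_bot.2 fun Z => hcon w Z)
  obtain ⟨w, Z, hΓ⟩ := h1
  generalize hG : isOm (VB B) w ⊓ isAl1Dense (VB B) w Z ⊓
      (⨅ A, (⨅ x, (VB B).mem x A ⇨ (VB B).sub x w) ⊓ isAl1 (VB B) w A ⇨
        ⨆ f, isEmb (VB B) w A Z f) = Γ at hΓ
  have hw : Γ ≤ isOm (VB B) w := by
    rw [← hG]
    exact inf_le_left.trans inf_le_left
  have hZ : Γ ≤ isAl1Dense (VB B) w Z := by
    rw [← hG]
    exact inf_le_left.trans inf_le_right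
  have hA : ∀ A, Γ ≤ (⨅ x, (VB B).mem x A ⇨ (VB B).sub x w) ⊓ isAl1 (VB B) w A ⇨
      ⨆ f, isEmb (VB B) w A Z f := by
    intro A
    rw [← hG]
    exact inf_le_right.trans (iInf_le _ A)
  obtain ⟨z, -, hz, hwo, hsub⟩ := hVz B hccv Γ w Z hw hZ
  obtain ⟨T, x, hcx, hgr, hno⟩ := hN fun ξ n => bmem (check (nn n)) (z ξ)
  obtain ⟨-, -, -, -, hst⟩ := hVc B hccv
  obtain ⟨hal, hpt⟩ := hst T x hcx hgr
  have hal' : Γ ≤ isAl1 (VB B) w (stN x) :=
    (ext_isAl1_left (stN x)).of_le' hwo (by rw [hal]; exact le_top)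
  have hpt' : Γ ≤ ⨅ y, (VB B).mem y (stN x) ⇨ (VB B).sub y w := by
    have he : Ext (fun w => ⨅ y, (VB B).mem y (stN x) ⇨ (VB B).sub y w) :=
      Ext.iInf fun y => (Ext.const _).himp (ext_sub_right y)
    exact he.of_le' hwo (by rw [hpt]; exact le_top)
  have h2 : Γ ≤ ⨆ f, isEmb (VB B) w (stN x) Z f := by
    have h3 := hA (stN x)
    rw [le_himp_iff] at h3
    exact (le_inf le_rfl (le_inf hpt' hal')).trans h3
  have h4 : ∃ f, Γ ⊓ isEmb (VB B) w (stN x) Z f ≠ ⊥ := by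
    by_contra hcon
    push Not at hcon
    apply hΓ
    have h5 : Γ ≤ Γ ⊓ ⨆ f, isEmb (VB B) w (stN x) Z f := le_inf le_rfl h2
    rw [inf_iSup_eq] at h5
    exact le_bot_iff.1 (h5.trans (iSup_le fun f => (hcon f).le))
  obtain ⟨f, hf⟩ := h4
  have h6 : Γ ⊓ isEmb (VB B) w (stN x) Z f ≤ isEmb (VB B) (check om) (stN x) Z f :=
    (ext_isEmb_left (stN x) Z f).of_le (inf_le_left.trans hwo) inf_le_right
  obtain ⟨F, hF⟩ := hVf B (Γ ⊓ isEmb (VB B) w (stN x) Z f) T x Z f z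
    (fun y => (inf_le_inf_right _ inf_le_left).trans (hz y))
    (fun y => (inf_le_inf_right _ inf_le_left).trans (hsub y)) h6
  exact hno _ hf F hF

end Pool.Agent.Lib.MP_a78e1f_lc.H14
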